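import Pool.Agent.W581.HQ.Stm

set_option autoImplicit false

namespace Pool.Agent.W654.HQ

open Pool.Agent.W581.HQ
open Pool.Agent.W360.MQ (cab)

theorem main (h : S_SVD) : S_REP := by
  intro p W hW A
  obtain ⟨s, t, hst⟩ := h A
  set x := ‖(cab A).1‖ with hx
  set y := ‖(cab A).2‖ with hy
  have hx0 : 0 ≤ x := norm_nonneg _
  have hy0 : 0 ≤ y := norm_nonneg _
  have h1 : W A = W (dg (x + y) (x - y)) := by
    rw [hst, hW.inv]
  rw [h1]
  unfold wp phi
  rcases (add_nonneg hx0 hy0).lt_or_eq with hpos | hzero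
  · have h2 : dg (x + y) (x - y) = (x + y) • dg 1 ((x - y) / (x + y)) := by
      unfold dg
      ext i j
      fin_cases i <;> fin_cases j <;> simp
      field_simp
    rw [h2, hW.hom _ _ hpos]
  · have hx' : x = 0 := by linarith
    have hy' : y = 0 := by linarith
    have h0 : dg (x + y) (x - y) = 0 := by
      rw [hx', hy']
      unfold dg
      ext i j
      fin_cases i <;> fin_cases j <;> simp
    have h3 := hW.hom 2 0 (by norm_num)
    rw [smul_zero] at h3
    have h4 : (1 : ℝ) < 2 ^ p := Real.one_lt_rpow (by norm_num) (by linarith [hW.p1])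
    have h5 : W 0 = 0 := by
      have h6 : (2 ^ p - 1) * W 0 = 0 := by linarith
      rcases mul_eq_zero.mp h6 with h7 | h7
      · linarith
      · exact h7
    rw [h0, h5, ← hzero, Real.zero_rpow (by linarith [hW.p1]), zero_mul]

end Pool.Agent.W654.HQ
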